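import Mathlib
import Pool.Agent.H373R2.T7.RS6

/-!
Representations of `n` as `p + p'` with `p'` prime and `p` a prime-indexed prime (`π(p)`, `π(π(p))`, ... prime): for all but
`x / log^U x` of the `n ≤ x` their number is given by the number of the prime-indexed primes `p < n` such that `n - p` has no
prime factor `≤ z`, `z` a power of `log x`.
-/

namespace Pool.Agent.Results.MP_5d7b92_nt.AlmostAllSieved
open Finset Polynomial Pool.Agent.H373R2.T7.RS

/-- the number of primes `p < n` such that `π(p)`, ..., `π^j(p)` are prime and `n - p` is prime -/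
def reps (j n : ℕ) : ℕ := ((range n).filter (fun p => (∀ i ∈ range (j + 1), (Nat.primeCounting^[i] p).Prime) ∧ (n - p).Prime)).card

/-- the number of primes `p < n` such that `π(p)`, ..., `π^j(p)` are prime and no prime `l ≤ z` divides `n - p` -/
def sieved (j n z : ℕ) : ℕ := ((range n).filter (fun p => (∀ i ∈ range (j + 1), (Nat.primeCounting^[i] p).Prime) ∧
  ∀ l ∈ (Icc 1 z).filter Nat.Prime, ¬ l ∣ n - p)).card

/-- the expected number of representations -/
noncomputable def expected (j n z x : ℕ) : ℝ :=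
  (∏ l ∈ (Icc 1 z).filter Nat.Prime, (1 - 1 / (l : ℝ)))⁻¹ * sieved j n z / Real.log x

open Classical in
theorem result (j U : ℕ) (ε : ℝ) (hε : 0 < ε) :
    ∃ B₀ : ℕ, ∀ E : ℕ, ∃ x₀ : ℕ, ∀ x : ℕ, x₀ ≤ x → ∀ z : ℕ, Real.log x ^ B₀ ≤ z → (z : ℝ) ≤ Real.log x ^ E →
      (((Icc 1 x).filter (fun n => ¬ |(reps j n : ℝ) - expected j n z x| ≤
        ε * expected j n z x + x / Real.log x ^ U)).card : ℝ) ≤ x / Real.log x ^ U := by
  obtain ⟨B₀, hB₀⟩ := diffs_of_one 1 (fun m => m) X (fun n => by simp) 1 natDegree_X le_rfl (by rw [leadingCoeff_X]; norm_num) 1 le_rfl U ε hε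
  refine ⟨B₀, fun E => ?_⟩
  obtain ⟨N0, h0⟩ := hB₀ E
  refine ⟨N0, fun x hx z hz1 hz2 => ?_⟩
  obtain ⟨S, hS⟩ : ∃ S : Finset ℕ, ∀ p, p ∈ S ↔ (1 ≤ p ∧ p ≤ x) ∧ ∀ i ∈ range (j + 1), (Nat.primeCounting^[i] p).Prime :=
    ⟨(Icc 1 x).filter (fun p => ∀ i ∈ range (j + 1), (Nat.primeCounting^[i] p).Prime), fun p => by simp only [mem_filter, mem_Icc]⟩
  have h1 := h0 x hx x (by simp) (by simp) z hz1 hz2 S (fun p hp => mem_Icc.2 ((hS p).1 hp).1)
  rw [pow_one] at h1
  refine le_trans ?_ h1
  have hcard : ((Icc 1 x).filter (fun n => ¬ |(reps j n : ℝ) - expected j n z x| ≤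
        ε * expected j n z x + x / Real.log x ^ U)).card ≤
      ((Fintype.piFinset (fun _ : Fin 1 => Icc 1 x)).filter (fun a => ¬ |(primeDiff (fun m => m) a S : ℝ) - expectedDiff (fun m => m) 1 a z x S| ≤
        ε * expectedDiff (fun m => m) 1 a z x S + x / Real.log x ^ U)).card := by
    apply card_le_card_of_injOn (fun n => fun _ => n)
    · intro n hn
      rw [mem_coe, mem_filter] at hn
      obtain ⟨hn1, hbad⟩ := hn
      have hnx := mem_Icc.1 hn1
      rw [mem_coe, mem_filter]
      refine ⟨Fintype.mem_piFinset.2 fun _ => hn1, ?_⟩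
      have e1 : primeDiff (fun m => m) (fun _ : Fin 1 => n) S = reps j n := by
        unfold primeDiff reps
        congr 1
        ext p
        simp only [hS, mem_filter, mem_range, mem_Icc]
        constructor
        · rintro ⟨⟨h2, h3⟩, h4⟩
          have h5 := h4 0
          have h6 := h5.pos
          exact ⟨by omega, h3, h5⟩
        · rintro ⟨h2, h3, h4⟩
          have h5 := (h3 0 (by omega)).pos
          simp only [Function.iterate_zero, id_eq] at h5
          exact ⟨⟨⟨by omega, by omega⟩, h3⟩, fun _ => h4⟩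
      have e2 : roughDiff (fun m => m) (fun _ : Fin 1 => n) z S = sieved j n z := by
        unfold roughDiff sieved
        congr 1
        ext p
        simp only [hS, mem_filter, mem_range, mem_Icc]
        constructor
        · rintro ⟨⟨h2, h3⟩, h4⟩
          exact ⟨(h4 0).1, h3, (h4 0).2⟩
        · rintro ⟨h2, h3, h4⟩
          have h5 := (h3 0 (by omega)).pos
          simp only [Function.iterate_zero, id_eq] at h5
          exact ⟨⟨⟨by omega, by omega⟩, h3⟩, fun _ => ⟨h2, h4⟩⟩
      have e3 : expectedDiff (fun m => m) 1 (fun _ : Fin 1 => n) z x S = expected j n z x := by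
        unfold expectedDiff expected
        rw [e2, pow_one, pow_one, Nat.cast_one, one_mul]
      rw [e1, e3]
      exact hbad
    · intro n _ m _ hnm
      exact congrFun hnm 0
  exact_mod_cast hcard

end Pool.Agent.Results.MP_5d7b92_nt.AlmostAllSieved
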