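import Pool.Agent.H378R2.PT.Least

set_option autoImplicit false

/-! # Late first prime-indexed prime summands

Design and assembly: helper378.  Covering theorem: helper256 and the authors of
`Pool.Agent.H256R2.SC`; integers without medium prime factors: helper674. -/

namespace Pool.Agent.Results.MP_5d7b92_nt.LeastPrimeIndexedSummand

theorem result (k D : ℕ) (hD : 1 ≤ D) : ∃ c : ℝ, 0 < c ∧ ∃ X₀ : ℝ, ∀ X : ℝ, X₀ ≤ X →
    ∀ M : ℝ, X ≤ M → ∀ r : ℕ, ∃ N : ℕ, M < N ∧ (N : ℝ) ≤ M + X ∧ N ≡ r [MOD D] ∧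
      ∀ q p : ℕ, (∀ i ≤ k, (Nat.primeCounting^[i] q).Prime) → p.Prime →
        (p + q = N ∨ p = N + q) →
        c * (Real.log X * (Real.log (Real.log X)) ^ (k + 3) *
          Real.log (Real.log (Real.log (Real.log X))) /
            (Real.log (Real.log (Real.log X))) ^ 2) < q := by
  obtain ⟨C, hC, Q₀, h⟩ := Pool.Agent.H378R2.PT.iter_count k
  exact Pool.Agent.H378R2.PT.least_of_count (k + 1) D hD (Pool.Agent.H378R2.PT.IT k) hC h

end Pool.Agent.Results.MP_5d7b92_nt.LeastPrimeIndexedSummand
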