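import Pool.Agent.H197R2.PG7

/-!
A lower bound for the number of integers `n ≤ x` for which `2 n` has a Goldbach representation
`2 n = p + q` with a prime-indexed prime `p`: at least a constant times
`x / log log log log x`.

Method: Cauchy-Schwarz in the style of Romanoff, with the Selberg upper bound sieve for prime pairs
(with the sharp dependence on the difference), applied to the prime-indexed primes below `(log x)^2`.
The average of the singular factor over the differences of this sparse set is bounded by
`C log k` through its `k`-th moment, with `k` about `log log log x`.
-/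

namespace Pool.Agent.Results.MP_5d7b92_nt.NearPositiveProportion

/-- For every `k ≥ 1` there is `c > 0` such that for all large `x` at least
`c x / log log log log x` of the integers `2 < n ≤ x` have a prime `p < 2 n` such that `2 n - p` is
prime and `p, π(p), π(π(p)), ..., π^k(p)` are all prime (`k = 1` is the condition of the problem). -/
theorem result (k : ℕ) (hk : 1 ≤ k) : ∃ c : ℝ, 0 < c ∧ ∀ᶠ x : ℕ in Filter.atTop,
    c * x / Real.log (Real.log (Real.log (Real.log x))) ≤
      Set.ncard {n : ℕ | 2 < n ∧ n ≤ x ∧ ∃ p : ℕ, p < 2 * n ∧
        (∀ j ≤ k, (Nat.primeCounting^[j] p).Prime) ∧ (2 * n - p).Prime} :=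
  Pool.Agent.H197R2.PG.main k hk

end Pool.Agent.Results.MP_5d7b92_nt.NearPositiveProportion
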